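import Pool.Agent.Y759.RS.Qr

/-!
Project RS: exponential moments.
-/

set_option autoImplicit false

namespace Pool.Agent.Y759.RS

open Finset Equiv Pool.Agent.Y105.RS

variable {V : Type} [Fintype V] [DecidableEq V]

/-! ### words -/

theorem pre_cons_zero {M : ℕ} (l : Lt V) (w : Fin M → Lt V) :
    pre (Fin.cons l w : Fin (M + 1) → Lt V) 0 = 1 := by
  unfold pre
  simp

theorem pre_cons_succ {M : ℕ} (l : Lt V) (w : Fin M → Lt V) (j : Fin M) :
    pre (Fin.cons l w : Fin (M + 1) → Lt V) j.succ = st l * pre w j := by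
  unfold pre
  rw [List.ofFn_succ, Fin.val_succ, List.take_succ_cons, List.prod_cons]
  simp only [Fin.cons_zero, Fin.cons_succ]

theorem XX_cons {m M : ℕ} (p r : V → V → ℝ) (h : Fin m → Fin m → ℝ) (c : V → Fin m) (l : Lt V)
    (w : Fin M → Lt V) : XX p r h c (Fin.cons l w : Fin (M + 1) → Lt V) =
      (h (c l.1.1) (c l.1.2) - gg p r h c) + XX p r h (c ∘ st l) w := by
  unfold XX
  rw [Fin.sum_univ_succ]
  congr 1
  refine Finset.sum_congr rfl fun j _ => ?_
  unfold la lb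
  rw [pre_cons_succ, Fin.cons_succ]
  rfl

theorem mean_succ (p : V → V → ℝ) {M : ℕ} (F : (Fin (M + 1) → Lt V) → ℝ) :
    mean p (M + 1) F = ∑ l : Lt V, p l.1.1 l.1.2 / 2 *
      mean p M (fun w => F (Fin.cons l w : Fin (M + 1) → Lt V)) := by
  unfold mean
  rw [← (Fin.consEquiv (fun _ : Fin (M + 1) => Lt V)).sum_comp, Fintype.sum_prod_type]
  refine Finset.sum_congr rfl fun l _ => ?_
  rw [Finset.mul_sum]
  refine Finset.sum_congr rfl fun w _ => ?_
  have h1 : (Fin.consEquiv (fun _ : Fin (M + 1) => Lt V)) (l, w) =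
      (Fin.cons l w : Fin (M + 1) → Lt V) := rfl
  rw [h1, Fin.prod_univ_succ, Fin.cons_zero]
  simp only [Fin.cons_succ]
  ring

/-! ### the operator and the form -/

/-- the operator -/
noncomputable def Kop {m : ℕ} (p : V → V → ℝ) (h : Fin m → Fin m → ℝ) (θ : ℝ)
    (f : (V → Fin m) → ℝ) (ξ : V → Fin m) : ℝ :=
  ∑ x, ∑ y, p x y * (Real.exp (θ * h (ξ x) (ξ y)) * ((f ξ + f (ξ ∘ swap x y)) / 2))

/-- the form -/
noncomputable def BB {m : ℕ} (p : V → V → ℝ) (h : Fin m → Fin m → ℝ) (θ : ℝ)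
    (f g : (V → Fin m) → ℝ) : ℝ :=
  ∑ x, ∑ y, p x y * ∑ ξ : V → Fin m, Real.exp (θ * h (ξ x) (ξ y)) *
    (((f ξ + f (ξ ∘ swap x y)) / 2) * ((g ξ + g (ξ ∘ swap x y)) / 2))

theorem comp_swap_swap {m : ℕ} (x y : V) (ξ : V → Fin m) : (ξ ∘ swap x y) ∘ swap x y = ξ := by
  funext v
  simp

theorem sum_swap {m : ℕ} (x y : V) (F : (V → Fin m) → ℝ) :
    ∑ ξ : V → Fin m, F (ξ ∘ swap x y) = ∑ ξ : V → Fin m, F ξ := by
  have hinv : Function.Involutive (fun ξ : V → Fin m => ξ ∘ swap x y) := comp_swap_swap x y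
  exact Equiv.sum_comp (Function.Involutive.toPerm _ hinv) F

theorem form_eq {m : ℕ} (p : V → V → ℝ) (h : Fin m → Fin m → ℝ) (hs : ∀ a b, h a b = h b a)
    (θ : ℝ) (f g : (V → Fin m) → ℝ) : ∑ ξ, f ξ * Kop p h θ g ξ = BB p h θ f g := by
  have h1 : ∑ ξ, f ξ * Kop p h θ g ξ = ∑ x, ∑ y, p x y * ∑ ξ : V → Fin m,
      f ξ * (Real.exp (θ * h (ξ x) (ξ y)) * ((g ξ + g (ξ ∘ swap x y)) / 2)) := by
    unfold Kop
    simp only [Finset.mul_sum]
    rw [Finset.sum_comm]
    refine Finset.sum_congr rfl fun x _ => ?_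
    rw [Finset.sum_comm]
    refine Finset.sum_congr rfl fun y _ => Finset.sum_congr rfl fun ξ _ => ?_
    ring
  rw [h1]
  unfold BB
  refine Finset.sum_congr rfl fun x _ => Finset.sum_congr rfl fun y _ => ?_
  congr 1
  have h2 := sum_swap x y (fun ξ : V → Fin m =>
    f ξ * (Real.exp (θ * h (ξ x) (ξ y)) * ((g ξ + g (ξ ∘ swap x y)) / 2)))
  have h3 : ∀ ξ : V → Fin m, f (ξ ∘ swap x y) * (Real.exp (θ * h ((ξ ∘ swap x y) x)
      ((ξ ∘ swap x y) y)) * ((g (ξ ∘ swap x y) + g ((ξ ∘ swap x y) ∘ swap x y)) / 2)) =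
      f (ξ ∘ swap x y) * (Real.exp (θ * h (ξ x) (ξ y)) * ((g ξ + g (ξ ∘ swap x y)) / 2)) := by
    intro ξ
    rw [comp_swap_swap]
    simp only [Function.comp_apply, swap_apply_left, swap_apply_right]
    rw [hs (ξ y) (ξ x), add_comm (g (ξ ∘ swap x y))]
  simp only [h3] at h2
  have h4 : ∑ ξ : V → Fin m, Real.exp (θ * h (ξ x) (ξ y)) *
      (((f ξ + f (ξ ∘ swap x y)) / 2) * ((g ξ + g (ξ ∘ swap x y)) / 2)) =
      (∑ ξ : V → Fin m, f ξ *
        (Real.exp (θ * h (ξ x) (ξ y)) * ((g ξ + g (ξ ∘ swap x y)) / 2)) +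
       ∑ ξ : V → Fin m, f (ξ ∘ swap x y) *
        (Real.exp (θ * h (ξ x) (ξ y)) * ((g ξ + g (ξ ∘ swap x y)) / 2))) / 2 := by
    rw [← Finset.sum_add_distrib, Finset.sum_div]
    exact Finset.sum_congr rfl fun ξ _ => by ring
  rw [h4, h2]
  ring

theorem cs_weight {ι : Type} (s : Finset ι) (W a b : ι → ℝ) (hW : ∀ i ∈ s, 0 ≤ W i) :
    (∑ i ∈ s, W i * (a i * b i)) ^ 2 ≤
      (∑ i ∈ s, W i * (a i * a i)) * ∑ i ∈ s, W i * (b i * b i) := by
  have h1 := Finset.sum_mul_sq_le_sq_mul_sq s (fun i => Real.sqrt (W i) * a i)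
    (fun i => Real.sqrt (W i) * b i)
  have e1 : ∑ i ∈ s, Real.sqrt (W i) * a i * (Real.sqrt (W i) * b i) =
      ∑ i ∈ s, W i * (a i * b i) := by
    refine Finset.sum_congr rfl fun i hi => ?_
    have := Real.mul_self_sqrt (hW i hi)
    linear_combination (a i * b i) * this
  have e2 : ∑ i ∈ s, (Real.sqrt (W i) * a i) ^ 2 = ∑ i ∈ s, W i * (a i * a i) := by
    refine Finset.sum_congr rfl fun i hi => ?_
    have := Real.mul_self_sqrt (hW i hi)
    linear_combination (a i * a i) * this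
  have e3 : ∑ i ∈ s, (Real.sqrt (W i) * b i) ^ 2 = ∑ i ∈ s, W i * (b i * b i) := by
    refine Finset.sum_congr rfl fun i hi => ?_
    have := Real.mul_self_sqrt (hW i hi)
    linear_combination (b i * b i) * this
  rw [e1, e2, e3] at h1
  exact h1

theorem BB_single {m : ℕ} (p : V → V → ℝ) (h : Fin m → Fin m → ℝ) (θ : ℝ)
    (f g : (V → Fin m) → ℝ) : BB p h θ f g = ∑ q : (V × V) × (V → Fin m),
      (p q.1.1 q.1.2 * Real.exp (θ * h (q.2 q.1.1) (q.2 q.1.2))) *
        (((f q.2 + f (q.2 ∘ swap q.1.1 q.1.2)) / 2) *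
          ((g q.2 + g (q.2 ∘ swap q.1.1 q.1.2)) / 2)) := by
  unfold BB
  rw [Fintype.sum_prod_type, Fintype.sum_prod_type]
  refine Finset.sum_congr rfl fun x _ => Finset.sum_congr rfl fun y _ => ?_
  rw [Finset.mul_sum]
  exact Finset.sum_congr rfl fun ξ _ => by ring

theorem BB_cs {m : ℕ} {p : V → V → ℝ} (hp : Wt p) (h : Fin m → Fin m → ℝ) (θ : ℝ)
    (f g : (V → Fin m) → ℝ) : BB p h θ f g ^ 2 ≤ BB p h θ f f * BB p h θ g g := by
  rw [BB_single, BB_single, BB_single]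
  exact cs_weight _ _ _ _ fun q _ => mul_nonneg (hp.nn _ _) (Real.exp_pos _).le

theorem BB_nn {m : ℕ} {p : V → V → ℝ} (hp : Wt p) (h : Fin m → Fin m → ℝ) (θ : ℝ)
    (f : (V → Fin m) → ℝ) : 0 ≤ BB p h θ f f := by
  rw [BB_single]
  exact Finset.sum_nonneg fun q _ =>
    mul_nonneg (mul_nonneg (hp.nn _ _) (Real.exp_pos _).le) (mul_self_nonneg _)

/-- RS-ITER -/
theorem iter (hF : S_FORM) : S_ITER := by
  intro V _ _ _ p r κ τ hp hr hτ hC m h hs hb θ hθ M
  have hρ : 0 ≤ rho κ τ θ := by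
    obtain ⟨v⟩ := (inferInstance : Nonempty V)
    have hκ : 0 ≤ κ := (hr.nn v v).trans (hr.le v v)
    unfold rho
    positivity
  set D : (V → Fin m) → ℝ := fun ξ => Real.exp (-(θ * gg p r h ξ) / 2) with hD
  have hD0 : ∀ ξ, 0 < D ξ := fun ξ => Real.exp_pos _
  have hD2 : ∀ ξ, D ξ * D ξ = Real.exp (-(θ * gg p r h ξ)) := by
    intro ξ
    rw [hD]
    simp only
    rw [← Real.exp_add]
    congr 1
    ring
  have hD3 : ∀ ξ, Real.exp (θ * gg p r h ξ) * (D ξ * D ξ) = 1 := by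
    intro ξ
    rw [hD2, ← Real.exp_add, add_neg_cancel, Real.exp_zero]
  -- the form on `D f`
  have hform : ∀ f : (V → Fin m) → ℝ, BB p h θ (fun ξ => D ξ * f ξ) (fun ξ => D ξ * f ξ) ≤
      (1 + rho κ τ θ) * ∑ ξ, f ξ ^ 2 := by
    intro f
    have h1 := hF V p r κ τ hp hr hτ hC m h hs hb θ hθ (fun ξ => D ξ * f ξ)
    have h2 : ∑ ξ : V → Fin m, Real.exp (θ * gg p r h ξ) * (D ξ * f ξ) ^ 2 = ∑ ξ, f ξ ^ 2 := by
      refine Finset.sum_congr rfl fun ξ _ => ?_
      linear_combination (f ξ ^ 2) * hD3 ξ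
    rw [h2] at h1
    refine le_trans (le_of_eq ?_) h1
    unfold BB
    refine Finset.sum_congr rfl fun x _ => Finset.sum_congr rfl fun y _ => ?_
    congr 1
    exact Finset.sum_congr rfl fun ξ _ => by ring
  -- the norm of the operator
  have hnorm : ∀ f : (V → Fin m) → ℝ,
      ∑ ξ, (D ξ * Kop p h θ (fun ξ => D ξ * f ξ) ξ) ^ 2 ≤
        (1 + rho κ τ θ) ^ 2 * ∑ ξ, f ξ ^ 2 := by
    intro f
    set g : (V → Fin m) → ℝ := fun ξ => D ξ * Kop p h θ (fun ξ => D ξ * f ξ) ξ with hg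
    have h1 : ∑ ξ, g ξ ^ 2 = BB p h θ (fun ξ => D ξ * g ξ) (fun ξ => D ξ * f ξ) := by
      rw [← form_eq p h hs]
      refine Finset.sum_congr rfl fun ξ _ => ?_
      rw [sq]
      nth_rewrite 2 [hg]
      simp only
      ring
    have h2 := BB_cs hp h θ (fun ξ => D ξ * g ξ) (fun ξ => D ξ * f ξ)
    rw [← h1] at h2
    have h3 := mul_le_mul (hform g) (hform f) (BB_nn hp h θ _)
      (mul_nonneg (by linarith) (Finset.sum_nonneg fun ξ _ => sq_nonneg (g ξ)))
    have h4 := h2.trans h3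
    change ∑ ξ, g ξ ^ 2 ≤ _
    have h5 : 0 ≤ ∑ ξ, g ξ ^ 2 := Finset.sum_nonneg fun ξ _ => sq_nonneg _
    have h6 : 0 ≤ ∑ ξ, f ξ ^ 2 := Finset.sum_nonneg fun ξ _ => sq_nonneg _
    rcases h5.eq_or_lt with h7 | h7
    · rw [← h7]
      positivity
    · have h8 : (∑ ξ, g ξ ^ 2) * (∑ ξ, g ξ ^ 2) ≤
          (∑ ξ, g ξ ^ 2) * ((1 + rho κ τ θ) ^ 2 * ∑ ξ, f ξ ^ 2) := by
        nlinarith
      exact le_of_mul_le_mul_left h8 h7
  -- the recursion
  have hG : ∀ (M : ℕ) (c : V → Fin m),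
      mean p (M + 1) (fun w => Real.exp (θ * XX p r h c w)) =
        Real.exp (-(θ * gg p r h c)) *
          Kop p h θ (fun c' => mean p M (fun w => Real.exp (θ * XX p r h c' w))) c := by
    intro M c
    rw [mean_succ]
    have h1 : ∀ l : Lt V, mean p M (fun w => Real.exp (θ * XX p r h c
        (Fin.cons l w : Fin (M + 1) → Lt V))) =
        (Real.exp (-(θ * gg p r h c)) * Real.exp (θ * h (c l.1.1) (c l.1.2))) *
          mean p M (fun w => Real.exp (θ * XX p r h (c ∘ st l) w)) := by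
      intro l
      rw [← mean_mul]
      congr 1
      funext w
      rw [XX_cons, ← Real.exp_add, ← Real.exp_add]
      congr 1
      ring
    simp only [h1]
    unfold Kop
    rw [Fintype.sum_prod_type, Fintype.sum_prod_type, Finset.mul_sum]
    refine Finset.sum_congr rfl fun x _ => ?_
    rw [Finset.mul_sum]
    refine Finset.sum_congr rfl fun y _ => ?_
    rw [Fintype.sum_bool]
    have h2 : c ∘ (st (((x, y), true) : Lt V)) = c ∘ swap x y := rfl
    have h3 : c ∘ (st (((x, y), false) : Lt V)) = c := rfl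
    rw [h2, h3]
    ring
  -- induction
  have hind : ∀ M : ℕ, ∑ c : V → Fin m,
      (mean p M (fun w => Real.exp (θ * XX p r h c w)) / D c) ^ 2 ≤
        ((1 + rho κ τ θ) ^ 2) ^ M * ∑ c, (1 / D c) ^ 2 := by
    intro M
    induction M with
    | zero =>
      rw [pow_zero, one_mul]
      refine le_of_eq (Finset.sum_congr rfl fun c _ => ?_)
      have h1 : mean p 0 (fun w => Real.exp (θ * XX p r h c w)) = 1 := by
        unfold mean XX
        simp
      rw [h1]
    | succ M ih =>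
      have h1 := hnorm (fun c => mean p M (fun w => Real.exp (θ * XX p r h c w)) / D c)
      have h2 : (fun c => D c * (mean p M (fun w => Real.exp (θ * XX p r h c w)) / D c)) =
          fun c => mean p M (fun w => Real.exp (θ * XX p r h c w)) := by
        funext c
        exact mul_div_cancel₀ _ (hD0 c).ne'
      simp only [h2] at h1
      have h3 : ∀ c, mean p (M + 1) (fun w => Real.exp (θ * XX p r h c w)) / D c =
          D c * Kop p h θ (fun c' => mean p M (fun w => Real.exp (θ * XX p r h c' w))) c := by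
        intro c
        rw [hG, ← hD2, div_eq_iff (hD0 c).ne']
        ring
      simp only [h3]
      refine h1.trans ?_
      calc _ ≤ (1 + rho κ τ θ) ^ 2 * (((1 + rho κ τ θ) ^ 2) ^ M * ∑ c, (1 / D c) ^ 2) :=
            mul_le_mul_of_nonneg_left ih (by positivity)
        _ = _ := by ring
  -- the bounds of the weights
  have hexp : Real.exp (1 / 2) ≤ 2 := by
    have h1 : Real.exp (1 / 2) ^ 2 ≤ 2 ^ 2 := by
      rw [← Real.exp_nat_mul]
      norm_num
      have := Real.exp_one_lt_d9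
      linarith
    exact le_of_sq_le_sq h1 (by norm_num)
  have habs : ∀ c, |θ * gg p r h c| ≤ 1 / 2 := by
    intro c
    rw [abs_mul]
    have h1 := gg_abs hp hr h hb c
    have h2 := abs_nonneg θ
    have h3 := abs_nonneg (gg p r h c)
    nlinarith
  have hcard : ∑ _c : V → Fin m, (2 : ℝ) = 2 * (m : ℝ) ^ Fintype.card V := by
    rw [Finset.sum_const, Finset.card_univ, Fintype.card_fun, Fintype.card_fin, nsmul_eq_mul]
    push_cast
    ring
  have hw1 : ∑ c, (1 / D c) ^ 2 ≤ 2 * (m : ℝ) ^ Fintype.card V := by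
    rw [← hcard]
    refine Finset.sum_le_sum fun c _ => ?_
    have h1 : (1 / D c) ^ 2 = Real.exp (θ * gg p r h c) := by
      have h3 := hD0 c
      rw [div_pow, one_pow, div_eq_iff (by positivity), sq]
      exact (hD3 c).symm
    rw [h1]
    exact (Real.exp_le_exp.2 ((le_abs_self _).trans (habs c))).trans hexp
  have hw2 : ∑ c, (D c) ^ 2 ≤ 2 * (m : ℝ) ^ Fintype.card V := by
    rw [← hcard]
    refine Finset.sum_le_sum fun c _ => ?_
    rw [sq, hD2]
    refine (Real.exp_le_exp.2 ?_).trans hexp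
    exact (neg_le_abs _).trans (habs c)
  -- conclusion
  change ∑ c : V → Fin m, mean p M (fun w => Real.exp (θ * XX p r h c w)) ≤ _
  have h1 := Finset.sum_mul_sq_le_sq_mul_sq (univ : Finset (V → Fin m)) D
    (fun c => mean p M (fun w => Real.exp (θ * XX p r h c w)) / D c)
  have h2 : ∀ c ∈ (univ : Finset (V → Fin m)),
      D c * (mean p M (fun w => Real.exp (θ * XX p r h c w)) / D c) =
        mean p M (fun w => Real.exp (θ * XX p r h c w)) := fun c _ =>
    mul_div_cancel₀ _ (hD0 c).ne'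
  rw [Finset.sum_congr rfl h2] at h1
  have h3 : 0 ≤ (m : ℝ) ^ Fintype.card V := by positivity
  have h4 : (∑ c : V → Fin m, mean p M (fun w => Real.exp (θ * XX p r h c w))) ^ 2 ≤
      (2 * (m : ℝ) ^ Fintype.card V * (1 + rho κ τ θ) ^ M) ^ 2 := by
    calc _ ≤ _ := h1
      _ ≤ (2 * (m : ℝ) ^ Fintype.card V) *
          (((1 + rho κ τ θ) ^ 2) ^ M * (2 * (m : ℝ) ^ Fintype.card V)) := by
        refine mul_le_mul hw2 ((hind M).trans (mul_le_mul_of_nonneg_left hw1 (by positivity)))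
          (Finset.sum_nonneg fun c _ => sq_nonneg _) (by positivity)
      _ = _ := by
        rw [← pow_mul, mul_comm 2 M, pow_mul]
        ring
  exact le_of_sq_le_sq h4 (by positivity)

end Pool.Agent.Y759.RS
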