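import Pool.Agent.Y105.RS.Stm

/-!
Project RS: quasirandomness from exponential moments.
-/

set_option autoImplicit false

namespace Pool.Agent.Y759.RS

open Finset Equiv Pool.Agent.Y105.RS

variable {V : Type} [Fintype V] [DecidableEq V]

theorem sum_p [Nonempty V] {p : V → V → ℝ} (hp : Wt p) : ∑ x, ∑ y, p x y = 1 := by
  have h1 : ∀ x ∈ (univ : Finset V), ∑ y, p x y = 1 / Fintype.card V := fun x _ => hp.reg x
  rw [Finset.sum_congr rfl h1, Finset.sum_const, Finset.card_univ, nsmul_eq_mul]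
  have h2 : (Fintype.card V : ℝ) ≠ 0 := by
    exact_mod_cast Fintype.card_ne_zero
  field_simp

theorem wgt_nn {p : V → V → ℝ} (hp : Wt p) {M : ℕ} (w : Fin M → Lt V) :
    0 ≤ ∏ i, p (w i).1.1 (w i).1.2 / 2 :=
  Finset.prod_nonneg fun i _ => div_nonneg (hp.nn _ _) (by norm_num)

theorem mean_mono {p : V → V → ℝ} (hp : Wt p) {M : ℕ} {F H : (Fin M → Lt V) → ℝ}
    (h : ∀ w, F w ≤ H w) : mean p M F ≤ mean p M H := by
  unfold mean
  exact Finset.sum_le_sum fun w _ => mul_le_mul_of_nonneg_left (h w) (wgt_nn hp w)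

theorem mean_add (p : V → V → ℝ) {M : ℕ} (F H : (Fin M → Lt V) → ℝ) :
    mean p M (fun w => F w + H w) = mean p M F + mean p M H := by
  unfold mean
  rw [← Finset.sum_add_distrib]
  exact Finset.sum_congr rfl fun w _ => by ring

theorem mean_mul (p : V → V → ℝ) {M : ℕ} (a : ℝ) (F : (Fin M → Lt V) → ℝ) :
    mean p M (fun w => a * F w) = a * mean p M F := by
  unfold mean
  rw [Finset.mul_sum]
  exact Finset.sum_congr rfl fun w _ => by ring

theorem mean_sum (p : V → V → ℝ) {M : ℕ} {ι : Type} (s : Finset ι)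
    (F : ι → (Fin M → Lt V) → ℝ) :
    mean p M (fun w => ∑ i ∈ s, F i w) = ∑ i ∈ s, mean p M (F i) := by
  unfold mean
  rw [Finset.sum_comm]
  exact Finset.sum_congr rfl fun w _ => by rw [Finset.mul_sum]

theorem mean_const [Nonempty V] {p : V → V → ℝ} (hp : Wt p) (M : ℕ) (a : ℝ) :
    mean p M (fun _ => a) = a := by
  unfold mean
  rw [← Finset.sum_mul]
  have h1 := Finset.prod_univ_sum (ι := Fin M) (fun _ => (univ : Finset (Lt V)))
    (fun _ (l : Lt V) => p l.1.1 l.1.2 / 2)
  rw [Fintype.piFinset_univ] at h1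
  rw [← h1, Finset.prod_const]
  have h2 : ∑ l : Lt V, p l.1.1 l.1.2 / 2 = 1 := by
    rw [Fintype.sum_prod_type]
    simp only [Fintype.sum_bool, add_halves]
    rw [Fintype.sum_prod_type]
    exact sum_p hp
  rw [h2, one_pow, one_mul]

theorem gg_abs [Nonempty V] {p r : V → V → ℝ} {κ : ℝ} (hp : Wt p) (hr : Ker r κ) {m : ℕ}
    (h : Fin m → Fin m → ℝ) (hh : ∀ a b, |h a b| ≤ 1) (ξ : V → Fin m) : |gg p r h ξ| ≤ 1 := by
  unfold gg
  have h1 : ∀ x y, |p x y * ∑ z, r y z * h (ξ x) (ξ z)| ≤ p x y := by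
    intro x y
    rw [abs_mul, abs_of_nonneg (hp.nn x y)]
    have h2 : |∑ z, r y z * h (ξ x) (ξ z)| ≤ ∑ z, r y z := by
      refine (Finset.abs_sum_le_sum_abs _ _).trans (Finset.sum_le_sum fun z _ => ?_)
      rw [abs_mul, abs_of_nonneg (hr.nn y z)]
      exact mul_le_of_le_one_right (hr.nn y z) (hh _ _)
    rw [hr.sum y] at h2
    exact mul_le_of_le_one_right (hp.nn x y) h2
  calc _ ≤ ∑ x, |∑ y, p x y * ∑ z, r y z * h (ξ x) (ξ z)| := Finset.abs_sum_le_sum_abs _ _
    _ ≤ ∑ x, ∑ y, p x y := Finset.sum_le_sum fun x _ =>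
        (Finset.abs_sum_le_sum_abs _ _).trans (Finset.sum_le_sum fun y _ => h1 x y)
    _ = 1 := sum_p hp

/-- the centred sum -/
noncomputable def XX {m M : ℕ} (p r : V → V → ℝ) (h : Fin m → Fin m → ℝ) (c : V → Fin m)
    (w : Fin M → Lt V) : ℝ :=
  ∑ j, (h (c (la w j)) (c (lb w j)) - gg p r h (c ∘ pre w j))

theorem XX_abs [Nonempty V] {p r : V → V → ℝ} {κ : ℝ} (hp : Wt p) (hr : Ker r κ) {m M : ℕ}
    (h : Fin m → Fin m → ℝ) (hh : ∀ a b, |h a b| ≤ 1) (c : V → Fin m) (w : Fin M → Lt V) :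
    |XX p r h c w| ≤ 2 * M := by
  unfold XX
  refine (Finset.abs_sum_le_sum_abs _ _).trans ?_
  have h1 : ∀ j ∈ (univ : Finset (Fin M)),
      |h (c (la w j)) (c (lb w j)) - gg p r h (c ∘ pre w j)| ≤ 2 := by
    intro j _
    refine (abs_sub _ _).trans ?_
    have h2 := hh (c (la w j)) (c (lb w j))
    have h3 := gg_abs hp hr h hh (c ∘ pre w j)
    linarith
  refine (Finset.sum_le_sum h1).trans (le_of_eq ?_)
  rw [Finset.sum_const, Finset.card_univ, Fintype.card_fin, nsmul_eq_mul, mul_comm]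

theorem XX_neg {m M : ℕ} (p r : V → V → ℝ) (h : Fin m → Fin m → ℝ) (c : V → Fin m)
    (w : Fin M → Lt V) : XX p r (fun a b => -h a b) c w = -XX p r h c w := by
  unfold XX
  rw [← Finset.sum_neg_distrib]
  refine Finset.sum_congr rfl fun j _ => ?_
  have h1 : gg p r (fun a b => -h a b) (c ∘ pre w j) = -gg p r h (c ∘ pre w j) := by
    unfold gg
    rw [← Finset.sum_neg_distrib]
    refine Finset.sum_congr rfl fun x _ => ?_
    rw [← Finset.sum_neg_distrib]
    refine Finset.sum_congr rfl fun y _ => ?_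
    rw [← mul_neg, ← Finset.sum_neg_distrib]
    congr 1
    exact Finset.sum_congr rfl fun z _ => by ring
  rw [h1]
  ring

/-- the basic bound for a parameter `θ` -/
theorem upper_theta (hI : S_ITER) [Nonempty V] {p r : V → V → ℝ} {κ τ : ℝ} (hp : Wt p)
    (hr : Ker r κ) (hτ : 0 ≤ τ) (hC : Cmp p r τ) {m M : ℕ} (hm : 2 ≤ m) (hM : 1 ≤ M)
    {T : Type} [Fintype T] [Nonempty T] (h : T → Fin m → Fin m → ℝ)
    (hs : ∀ t a b, h t a b = h t b a) (hb : ∀ t a b, |h t a b| ≤ 1)
    (t : (Fin M → Lt V) → T) (c : (Fin M → Lt V) → V → Fin m) (θ : ℝ) (hθ : 0 < θ)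
    (hθ2 : θ ≤ 1 / 2) (hκ : 0 ≤ κ) :
    θ * mean p M (fun w => XX p r (h (t w)) (c w) w) ≤
      2 * (Fintype.card V * Real.log m + Real.log (Fintype.card T)) +
        M * (2 * ((1 + 8 * τ) * θ ^ 2 + 2 * κ * θ)) := by
  have hm0 : (0 : ℝ) < m := by exact_mod_cast (show 0 < m by omega)
  have hT0 : (0 : ℝ) < Fintype.card T := by exact_mod_cast Fintype.card_pos
  have hT1 : (1 : ℝ) ≤ Fintype.card T := by exact_mod_cast Fintype.card_pos
  have hV1 : (1 : ℝ) ≤ Fintype.card V := by exact_mod_cast Fintype.card_pos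
  have hρ : rho κ τ θ = 2 * ((1 + 8 * τ) * θ ^ 2 + 2 * κ * θ) := by
    unfold rho
    rw [abs_of_pos hθ]
  have hρ0 : 0 ≤ rho κ τ θ := by
    rw [hρ]
    positivity
  set E : ℝ := Fintype.card T * (2 * (m : ℝ) ^ Fintype.card V * (1 + rho κ τ θ) ^ M) with hE
  have hE0 : 0 < E := by positivity
  have h1 : mean p M (fun w => Real.exp (θ * XX p r (h (t w)) (c w) w)) ≤ E := by
    have h2 : mean p M (fun w => Real.exp (θ * XX p r (h (t w)) (c w) w)) ≤
        mean p M (fun w => ∑ s : T, ∑ d : V → Fin m, Real.exp (θ * XX p r (h s) d w)) := by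
      refine mean_mono hp fun w => ?_
      refine le_trans ?_ (Finset.single_le_sum
        (f := fun s : T => ∑ d : V → Fin m, Real.exp (θ * XX p r (h s) d w))
        (fun s _ => Finset.sum_nonneg fun d _ => (Real.exp_pos _).le) (Finset.mem_univ (t w)))
      exact Finset.single_le_sum
        (f := fun d : V → Fin m => Real.exp (θ * XX p r (h (t w)) d w))
        (fun d _ => (Real.exp_pos _).le) (Finset.mem_univ (c w))
    refine h2.trans ?_
    rw [mean_sum]
    have h3 : ∀ s ∈ (univ : Finset T), mean p M (fun w => ∑ d : V → Fin m,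
        Real.exp (θ * XX p r (h s) d w)) ≤
        2 * (m : ℝ) ^ Fintype.card V * (1 + rho κ τ θ) ^ M := by
      intro s _
      rw [mean_sum]
      exact hI V p r κ τ hp hr hτ hC m (h s) (hs s) (hb s) θ (by rwa [abs_of_pos hθ]) M
    refine (Finset.sum_le_sum h3).trans (le_of_eq ?_)
    rw [Finset.sum_const, Finset.card_univ, nsmul_eq_mul]
  have h4 : θ * mean p M (fun w => XX p r (h (t w)) (c w) w) ≤ Real.log E := by
    have h5 : θ * mean p M (fun w => XX p r (h (t w)) (c w) w) ≤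
        mean p M (fun w => Real.exp (-Real.log E) *
          Real.exp (θ * XX p r (h (t w)) (c w) w) + (Real.log E - 1)) := by
      rw [← mean_mul]
      refine mean_mono hp fun w => ?_
      have h6 := Real.add_one_le_exp (-Real.log E + θ * XX p r (h (t w)) (c w) w)
      rw [Real.exp_add] at h6
      linarith
    rw [mean_add, mean_mul, mean_const hp] at h5
    have h7 : Real.exp (-Real.log E) *
        mean p M (fun w => Real.exp (θ * XX p r (h (t w)) (c w) w)) ≤ 1 := by
      rw [Real.exp_neg, Real.exp_log hE0]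
      calc E⁻¹ * _ ≤ E⁻¹ * E := mul_le_mul_of_nonneg_left h1 (by positivity)
        _ = 1 := inv_mul_cancel₀ hE0.ne'
    linarith
  have h8 : Real.log E = Real.log (Fintype.card T) + (Real.log 2 +
      Fintype.card V * Real.log m + M * Real.log (1 + rho κ τ θ)) := by
    rw [hE, Real.log_mul hT0.ne' (by positivity), Real.log_mul (by positivity) (by positivity),
      Real.log_mul (by norm_num) (by positivity), Real.log_pow, Real.log_pow]
  have h9 : Real.log (1 + rho κ τ θ) ≤ rho κ τ θ := by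
    have := Real.log_le_sub_one_of_pos (show 0 < 1 + rho κ τ θ by linarith)
    linarith
  have h10 : Real.log 2 ≤ Fintype.card V * Real.log m := by
    have h11 : Real.log 2 ≤ Real.log m :=
      Real.log_le_log (by norm_num) (by exact_mod_cast hm)
    have h12 : 0 ≤ Real.log m := le_trans (Real.log_nonneg (by norm_num)) h11
    nlinarith
  have h13 : 0 ≤ Real.log (Fintype.card T) := Real.log_nonneg hT1
  have h14 : (M : ℝ) * Real.log (1 + rho κ τ θ) ≤ M * rho κ τ θ :=
    mul_le_mul_of_nonneg_left h9 (Nat.cast_nonneg _)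
  rw [hρ] at h14
  rw [hρ] at h8
  linarith

theorem upper (hI : S_ITER) [Nonempty V] {p r : V → V → ℝ} {κ τ : ℝ} (hp : Wt p)
    (hr : Ker r κ) (hτ : 0 ≤ τ) (hC : Cmp p r τ) {m M : ℕ} (hm : 2 ≤ m) (hM : 1 ≤ M)
    {T : Type} [Fintype T] [Nonempty T] (h : T → Fin m → Fin m → ℝ)
    (hs : ∀ t a b, h t a b = h t b a) (hb : ∀ t a b, |h t a b| ≤ 1)
    (t : (Fin M → Lt V) → T) (c : (Fin M → Lt V) → V → Fin m) :
    mean p M (fun w => XX p r (h (t w)) (c w) w / M) ≤
      20 * Real.sqrt ((1 + τ) *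
        (Fintype.card V * Real.log m + Real.log (Fintype.card T)) / M) + 4 * κ := by
  obtain ⟨v⟩ := (inferInstance : Nonempty V)
  have hκ : 0 ≤ κ := (hr.nn v v).trans (hr.le v v)
  have hM0 : (0 : ℝ) < M := by exact_mod_cast (show 0 < M by omega)
  set H : ℝ := Fintype.card V * Real.log m + Real.log (Fintype.card T) with hH
  have hT1 : (1 : ℝ) ≤ Fintype.card T := by exact_mod_cast Fintype.card_pos
  have hV1 : (1 : ℝ) ≤ Fintype.card V := by
    exact_mod_cast Fintype.card_pos
  have hH0 : 0 < H := by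
    have h11 : Real.log 2 ≤ Real.log m :=
      Real.log_le_log (by norm_num) (by exact_mod_cast hm)
    have h12 : 0 < Real.log m := lt_of_lt_of_le (Real.log_pos (by norm_num)) h11
    have h13 : 0 ≤ Real.log (Fintype.card T) := Real.log_nonneg hT1
    have h14 : 0 < Fintype.card V * Real.log m := by positivity
    linarith
  have hdiv : mean p M (fun w => XX p r (h (t w)) (c w) w / M) =
      mean p M (fun w => XX p r (h (t w)) (c w) w) / M := by
    have h1 : (fun w => XX p r (h (t w)) (c w) w / (M : ℝ)) =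
        fun w => (M : ℝ)⁻¹ * XX p r (h (t w)) (c w) w := by
      funext w
      rw [div_eq_inv_mul]
    rw [h1, mean_mul, div_eq_inv_mul]
  set θ : ℝ := Real.sqrt (H / (M * (1 + τ))) with hθdef
  have hθ0 : 0 < θ := Real.sqrt_pos.2 (by positivity)
  have hθsq : θ ^ 2 = H / (M * (1 + τ)) := Real.sq_sqrt (by positivity)
  have hroot : Real.sqrt ((1 + τ) * H / M) = (1 + τ) * θ := by
    have h1 : (1 + τ) * H / M = ((1 + τ) * θ) ^ 2 := by
      rw [mul_pow, hθsq]
      field_simp
    rw [h1, Real.sqrt_sq (by positivity)]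
  rw [hroot]
  by_cases hθ2 : θ ≤ 1 / 2
  · have h2 := upper_theta hI hp hr hτ hC hm hM h hs hb t c θ hθ0 hθ2 hκ
    rw [hdiv, div_le_iff₀ hM0]
    have h3 : H = θ ^ 2 * (M * (1 + τ)) := by
      rw [hθsq]
      field_simp
    rw [← hH, h3] at h2
    have h4 : θ * mean p M (fun w => XX p r (h (t w)) (c w) w) ≤
        θ * ((20 * ((1 + τ) * θ) + 4 * κ) * M) := by
      refine h2.trans ?_
      have h5 : 0 ≤ θ ^ 2 * M * τ := by positivity
      have h6 : 0 ≤ θ ^ 2 * M := by positivity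
      nlinarith
    exact le_of_mul_le_mul_left h4 hθ0
  · have h2 : mean p M (fun w => XX p r (h (t w)) (c w) w / M) ≤ mean p M (fun _ => (2 : ℝ)) := by
      refine mean_mono hp fun w => ?_
      rw [div_le_iff₀ hM0]
      exact (le_abs_self _).trans (XX_abs hp hr (h (t w)) (hb (t w)) (c w) w)
    rw [mean_const hp] at h2
    have h3 : 1 / 2 < θ := not_le.1 hθ2
    nlinarith

/-- RS-QR -/
theorem qr (hI : S_ITER) : S_QR := by
  intro V _ _ _ p r κ τ hp hr hτ hC m M hm hM T _ _ h hs hb t c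
  have h1 := upper hI hp hr hτ hC hm hM h hs hb t c
  have h2 := upper hI hp hr hτ hC hm hM (fun s a b => -h s a b)
    (fun s a b => by rw [hs s a b]) (fun s a b => by rw [abs_neg]; exact hb s a b) t c
  have h3 : mean p M (fun w => XX p r (fun a b => -h (t w) a b) (c w) w / M) =
      -mean p M (fun w => XX p r (h (t w)) (c w) w / M) := by
    have h4 : (fun w => XX p r (fun a b => -h (t w) a b) (c w) w / (M : ℝ)) =
        fun w => (-1) * (XX p r (h (t w)) (c w) w / M) := by
      funext w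
      rw [XX_neg]
      ring
    rw [h4, mean_mul]
    ring
  rw [h3] at h2
  have h5 : |mean p M (fun w => XX p r (h (t w)) (c w) w / M)| ≤
      20 * Real.sqrt ((1 + τ) *
        (Fintype.card V * Real.log m + Real.log (Fintype.card T)) / M) + 4 * κ := by
    rw [abs_le]
    constructor <;> linarith
  exact h5

end Pool.Agent.Y759.RS
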